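import Pool.Agent.TH698.BL.Nef

set_option autoImplicit false

/-!
# Abundance and the codimension of the base locus (MP_9a2ae6_ag, pairs with X smooth, B = 0)

Abundance for compact Kaehler manifolds: if `X` is a compact Kaehler manifold and `K_X` is nef, then
`K_X` is semiample.  We show that it holds for all compact Kaehler manifolds as soon as the
codimension of the stable base locus tends to infinity with the dimension, in the following weak
sense: for some `φ : ℕ → ℤ` which is unbounded above on the multiples of every `n ≥ 1` (for example,
`φ (m!) → ∞` as slowly as one likes and `φ = -1`, that is, no condition, in all other dimensions)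
the stable base locus of `K_X`, for `K_X` nef, contains no compact complex submanifold `Z` with `K_Z`
nef which is a holomorphic retract of `X` and whose codimension in `X` is at most `φ (dim X)`.

The proof considers the powers `X^k`: a point `x` of the stable base locus of `X` gives the
submanifold `{x} × X^(k-1)` of the stable base locus of `X^k`, whose codimension is `dim X` for all
`k`.  All notions are the actual ones, defined here on complex manifolds of Mathlib, and nothing is
assumed.
-/

open scoped Manifold ContDiff Topology
open Set Filter Pool.Agent.TH698.BL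

namespace Pool.Agent.Results.MP_9a2ae6_ag.BaseLocusCodimension

/-- The product. -/
noncomputable def prod (X Y : CompactManifold) : CompactManifold where
  E := X.E × Y.E
  H := ModelProd X.H Y.H
  M := X.M × Y.M
  I := X.I.prod Y.I

/-- The powers: `pow X k` is `X^(k+1)`. -/
noncomputable def pow (X : CompactManifold) : ℕ → CompactManifold
  | 0 => X
  | k + 1 => prod X (pow X k)

theorem dim_prod (X Y : CompactManifold) : (prod X Y).dim = X.dim + Y.dim :=
  Module.finrank_prod

theorem dim_pow (X : CompactManifold) (k : ℕ) : (pow X k).dim = (k + 1) * X.dim := by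
  induction k with
  | zero => simp [pow]
  | succ k ih =>
    change (prod X (pow X k)).dim = _
    rw [dim_prod, ih]
    ring

theorem nef_pow (X : CompactManifold) (h : NefKahler X.I X.M) (k : ℕ) :
    NefKahler (pow X k).I (pow X k).M := by
  induction k with
  | zero => exact h
  | succ k ih => exact nef_prod X.I (pow X k).I h ih

/-- The canonical bundle of a connected manifold of dimension zero has an empty base locus. -/
theorem base_zero (X : CompactManifold) (h : X.dim = 0) : Base X.I X.M = ∅ := by
  have hs : Subsingleton X.E := Module.finrank_zero_iff.1 h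
  rw [eq_empty_iff_forall_notMem]
  intro x hx
  refine one_ne_zero (hx 1 le_rfl (fun _ => 1) ?_)
  intro y z _
  exact (hasFDerivAt_of_subsingleton _ z).differentiableAt.differentiableWithinAt

/-- Abundance for all compact Kaehler manifolds is equivalent to this: for some function `φ` which
is unbounded above on the multiples of every positive integer, the stable base locus of the
canonical bundle of a compact Kaehler manifold `X` with nef canonical bundle contains no compact
complex submanifold (image of `f`) with nef canonical bundle, which is a holomorphic retract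
(by `r`) of `X` and has codimension at most `φ (dim X)`. -/
theorem result :
    (∀ X : CompactManifold, NefKahler X.I X.M → Semiample X.I X.M) ↔
    ∃ φ : ℕ → ℤ, (∀ n : ℕ, 1 ≤ n → ∀ c : ℤ, ∃ k : ℕ, c ≤ φ (k * n)) ∧
      ∀ X : CompactManifold, NefKahler X.I X.M →
        ∀ (Z : CompactManifold) (f : Z.M → X.M) (r : X.M → Z.M), NefKahler Z.I Z.M →
          ContMDiff Z.I X.I ω f → ContMDiff X.I Z.I ω r → (∀ z, r (f z) = z) →
          (∀ z, f z ∈ Base X.I X.M) → φ X.dim < (X.dim : ℤ) - Z.dim := by
  constructor
  · intro h
    refine ⟨fun m => m, fun n hn c => ⟨c.toNat, ?_⟩, fun X hX Z f _ _ _ _ _ hb => ?_⟩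
    · have h1 : c ≤ (c.toNat : ℤ) := Int.self_le_toNat c
      have h2 : c.toNat * 1 ≤ c.toNat * n := Nat.mul_le_mul_left _ hn
      rw [mul_one] at h2
      have h3 : (c.toNat : ℤ) ≤ ((c.toNat * n : ℕ) : ℤ) := by exact_mod_cast h2
      exact h1.trans h3
    · obtain ⟨l, hl, hs⟩ := h X hX
      obtain ⟨z⟩ : Nonempty Z.M := inferInstance
      obtain ⟨c, hc, h0⟩ := hs (f z)
      exact absurd (hb z l hl c hc) h0
  · rintro ⟨φ, hφ, h⟩ X hX
    apply semiample_of_base
    by_contra hne
    obtain ⟨x, hx⟩ := nonempty_iff_ne_empty.2 hne
    have hd : 1 ≤ X.dim := by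
      by_contra h0
      exact hne (base_zero X (by omega))
    obtain ⟨k, hk⟩ := hφ X.dim hd (max (X.dim : ℤ) (max (φ 0 + 1) (φ X.dim + 1)))
    have k1 : (X.dim : ℤ) ≤ φ (k * X.dim) := (le_max_left _ _).trans hk
    have k2 : φ 0 + 1 ≤ φ (k * X.dim) := ((le_max_left _ _).trans (le_max_right _ _)).trans hk
    have k3 : φ X.dim + 1 ≤ φ (k * X.dim) := ((le_max_right _ _).trans (le_max_right _ _)).trans hk
    obtain ⟨j, rfl⟩ : ∃ j, k = j + 2 := by
      rcases k with _ | _ | j
      · rw [zero_mul] at k2
        omega
      · rw [zero_add, one_mul] at k3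
        omega
      · exact ⟨j, rfl⟩
    have h1 := h (pow X (j + 1)) (nef_pow X hX (j + 1)) (pow X j) (fun z => (x, z)) Prod.snd
      (nef_pow X hX j) (contMDiff_const.prodMk contMDiff_id) contMDiff_snd (fun _ => rfl)
      (fun z => base_prod X.I (pow X j).I hx z)
    rw [dim_pow, dim_pow] at h1
    have e' : (j + 1 + 1) * X.dim = (j + 2) * X.dim := by ring
    rw [e'] at h1
    have e : (((j + 2) * X.dim : ℕ) : ℤ) - (((j + 1) * X.dim : ℕ) : ℤ) = X.dim := by
      push_cast
      ring
    rw [e] at h1
    omega

end Pool.Agent.Results.MP_9a2ae6_ag.BaseLocusCodimension
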