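import Pool.Agent.TH122.PA.Pr

/-!
# Klt pairs over an arrangement at the critical bound

Let `ℓ i = 0` be `q` hyperplanes in projective `n`-space, `n ≥ 3`, an arbitrary arrangement which is
not reducible (general position is not assumed), let `X` be a normal projective variety of dimension
`n` with a generically finite rational map to projective space, and let `Δ ≥ 0` be an `ℝ`-divisor on
`X`, for instance the boundary of a klt pair. At a prime divisor `P` of `X` whose image lies in the
arrangement let `m P` be the largest multiplicity of one of the hyperplanes, and let `δ P` be the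
coefficient of `Δ`. If

  `δ P ≥ 1 - m P / (n + 1)`

for all these `P`, then `K_X + Δ` is big, unless the arrangement consists of `n + 2` hyperplanes in
general position, or consists of `n + 2` hyperplanes in general position and further hyperplanes of
the pencil spanned by two of them. Both exceptions are necessary: there are covers of projective
space over arrangements of these kinds, with all multiplicities equal to `n + 1` and `Δ = 0`, whose
Kodaira dimension is `-∞` or `1`.

The function-field language of the starting repository is used. `K` is the function field of `X`,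
the coordinates `x 0, ..., x n` of the map are elements of `K` whose ratios are a transcendence basis;
the prime divisors of `X` are places `P` of `K` (`Place`, `Divisorial`), `P.ord` is the order along
`P`, and `X` is given by the set of its prime divisors. The boundary `Δ` is given by its
coefficients `δ P`. A section of `N (K_X + Δ)` is an `N`-canonical form `ω` (`IsPluri`), a function of
`n` rational vector fields, whose value on vector fields that are regular at `P` has order at least
`- N δ P`, for all prime divisors `P` of `X`.
-/

set_option autoImplicit false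

open FF Pool.Agent.W602.Cov Pool.Agent.W602.GT

namespace Pool.Agent.Results.MP_9a2ae6_ag.CriticalArrangementPairs

/-- The value of a linear form at a vector over `K`. -/
noncomputable def form {n : ℕ} {K : Type} [Field K] [Algebra ℂ K] (φ : Form n)
    (x : Fin (n + 1) → K) : K := ∑ j, algebraMap ℂ K (φ (Pi.single j 1)) * x j

/-- `ω` is a section of `N (K_X + Δ)`, where `X` is given by the set of its prime divisors, and `Δ` has
the coefficient `δ P` at `P`: an `N`-canonical form whose values on vector fields which are
regular at `P` have order at least `- N δ P`, for all prime divisors `P` of `X`. -/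
def IsSection {K : Type} [Field K] [Algebra ℂ K] (n : ℕ) (X : Set (Place ℂ K))
    (δ : Place ℂ K → ℝ) (N : ℕ) (ω : (Fin n → Derivation ℂ K K) → K) : Prop :=
  IsPluri N ω ∧ ∀ P ∈ X, Divisorial n P → ∀ D : Fin n → Derivation ℂ K K,
    (∀ i, DerReg P (D i)) → ω D = 0 ∨ -(N * δ P) ≤ (P.ord (ω D) : ℝ)

/-- The condition on the multiplicities: at every prime divisor `P` of `X` the hyperplane `i` has the
order `a + v i`, where the minimum of the orders of all linear forms is `a`; if some `v i` is not
`0`, that is, if the image of `P` lies in one of the hyperplanes, then the largest `v i` is at least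
`(n + 1) (1 - δ P)`. -/
def Multiplicities {n q : ℕ} (ℓ : Fin q → Form n) {K : Type} [Field K] [Algebra ℂ K]
    (x : Fin (n + 1) → K) (X : Set (Place ℂ K)) (δ : Place ℂ K → ℝ) : Prop :=
  ∀ P ∈ X, Divisorial n P → ∀ (a : ℤ) (v : Fin q → ℕ),
    (∀ φ : Form n, form φ x = 0 ∨ a ≤ P.ord (form φ x)) →
    (∃ φ : Form n, form φ x ≠ 0 ∧ P.ord (form φ x) = a) →
    (∀ i, P.ord (form (ℓ i) x) = a + v i) → v ≠ 0 → ∃ i, ((n : ℝ) + 1) * (1 - δ P) ≤ v i

/-- `K_X + Δ` is big: some positive multiple has sections with `n` algebraically independent ratios,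
where `n` is the dimension of `X`. -/
def IsBig {K : Type} [Field K] [Algebra ℂ K] (n : ℕ) (X : Set (Place ℂ K))
    (δ : Place ℂ K → ℝ) : Prop :=
  ∃ N : ℕ, 0 < N ∧ ∃ ω : Fin (n + 1) → (Fin n → Derivation ℂ K K) → K,
    (∀ j, IsSection n X δ N (ω j)) ∧
    ∃ D, ω 0 D ≠ 0 ∧ AlgebraicIndependent ℂ (fun i : Fin n => ω i.succ D / ω 0 D)

/-- The arrangement consists of the `n + 2` hyperplanes `ℓ (c j) = 0`, which are in general
position: each `n + 1` of the forms are linearly independent. Hyperplanes may be listed several
times. -/
def GeneralPosition {n q : ℕ} (ℓ : Fin q → Form n) (c : Fin (n + 2) → Fin q) : Prop :=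
  (∀ j : Fin (n + 2), LinearIndependent ℂ fun a => ℓ (c (j.succAbove a))) ∧
    ∀ i, ∃ (j : Fin (n + 2)) (t : ℂ), ℓ i = t • ℓ (c j)

/-- The arrangement contains the `n + 2` hyperplanes `ℓ (c k) = 0`, which are in general position,
and each of its other hyperplanes contains the intersection of `ℓ (c i) = 0` and `ℓ (c j) = 0`,
where `i ≠ j`. -/
def PencilType {n q : ℕ} (ℓ : Fin q → Form n) (c : Fin (n + 2) → Fin q) (i j : Fin (n + 2)) :
    Prop :=
  i ≠ j ∧ (∀ k : Fin (n + 2), LinearIndependent ℂ fun a => ℓ (c (k.succAbove a))) ∧
    ∀ d, (∃ (k : Fin (n + 2)) (t : ℂ), ℓ d = t • ℓ (c k)) ∨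
      ℓ d ∈ Submodule.span ℂ {ℓ (c i), ℓ (c j)}

/-- **Bigness at the critical bound.** Let `X` be a variety of dimension `n ≥ 3` with function field
`K` and a generically finite rational map `[x 0 : ... : x n]` to projective space, let `ℓ i = 0` be
an arrangement which is not reducible, does not consist of `n + 2` hyperplanes in general position,
and is not of pencil type, and let `Δ ≥ 0` be a real divisor on `X` with coefficients
`δ P ≥ 1 - (max v i) / (n + 1)` at the prime divisors `P` of `X` over the arrangement. Then
`K_X + Δ` is big. -/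
theorem result (n q : ℕ) (hn : 3 ≤ n) (ℓ : Fin q → Form n) (hℓ : ∀ i, ℓ i ≠ 0)
    (hr : ¬ Reducible ℓ) (hg : ¬ ∃ c, GeneralPosition ℓ c) (hp : ¬ ∃ c i j, PencilType ℓ c i j)
    (K : Type) [Field K] [Algebra ℂ K] (x : Fin (n + 1) → K) (hx : x 0 ≠ 0)
    (hbas : IsTranscendenceBasis ℂ (fun j : Fin n => x j.succ / x 0)) (X : Set (Place ℂ K))
    (δ : Place ℂ K → ℝ) (hδ : ∀ P ∈ X, 0 ≤ δ P) (h : Multiplicities ℓ x X δ) : IsBig n X δ :=
  Pool.Agent.TH122.PA.big_of_slack (Pool.Agent.W392.CG.span_top (by omega) ℓ hr)
    (Pool.Agent.TH122.PA.slack hn hℓ hr hg hp)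
    (fun i => Pool.Agent.TH152.AC.lf_ne hx hbas.1 (hℓ i)) hx hbas X δ hδ h

end Pool.Agent.Results.MP_9a2ae6_ag.CriticalArrangementPairs
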