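import Pool.Agent.TH735.AQ.Mero

set_option autoImplicit false

/-!
# Abundance for pairs on quotients of complex tori by finite groups

Let `X = V / Γ` be the quotient of a complex torus of any dimension, projective or not, by any finite
group, which may contain reflections, so that `V → X` may be ramified along divisors and `K_X` may be
negative. Let `B` be an effective divisor with rational coefficients on `X` and `m (K_X + B)`
integral and Cartier. The theorem says: `K_X + B` is nef if and only if it is semiample, and the
morphism is given by the linear map whose kernel is the kernel of the Chern form of `K_X + B`.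

The proof: the line bundle `L = O_X(m (K_X + B))` has a meromorphic section with poles only on the
branch divisor. Let `K` be the kernel of the Chern form `H` of `L`, `Λ` the lattice of `Γ`, and `N` the
group of the linear parts of elements of `Γ` which act trivially on `V / K`. A mirror of `Γ` is parallel to
each vector of `K` fixed by `N`, so the meromorphic section is holomorphic on a general translate of
the torus `K ^ N / (Λ ∩ K ^ N)`, and not zero, so that `L` is trivial there by Liouville's theorem. The
character of `Λ ∩ K` given by `L` is invariant under `N`, hence its power `|N|` is trivial.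

`latt`, `IsTorusQuotient` and `LineBundle` are defined in `Pool.Agent.W594.SYZ.Defs2`; `IsChernForm`,
`IsNefForm`, `IsPositiveForm` and `Induces` in `Pool.Agent.W594.SYZ.TQDefs`; `IsFibration` and
`IsSemiample` in `Pool.Agent.TH735.AQ.Defs`; `OnMirror`, `ramIndex`, `IsRamification` and
`IsLogPluricanonical` in `Pool.Agent.TH735.AQ.MirDefs`.
-/

namespace Pool.Agent.Results.MP_9a2ae6_ag.TorusQuotientPairs

open Pool.Agent.W594.SYZ2 Pool.Agent.TH735.AQ

/-- Let `X = V / Γ` be a quotient of a complex torus by a finite group, `ρ` an entire function which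
defines the ramification divisor of `V → X`, `β` an entire function, not zero, which defines the
pullback of the effective divisor `m B`, and `L = O_X(m (K_X + B))` with Chern form `H`. Then `L` is
semiample if and only if it is nef, and in this case the fibration is given by a linear map `π`
whose kernel is the kernel of `H`. -/
theorem result {V : Type*} [NormedAddCommGroup V] [NormedSpace ℂ V] [FiniteDimensional ℂ V]
    (Γ : Subgroup (V ≃ᵃ[ℂ] V)) (hΓ : IsTorusQuotient Γ) (ρ β : V → ℂ) (m : ℕ)
    (hρ : IsRamification Γ ρ) (hβ : Differentiable ℂ β) (hβ0 : ∃ v, β v ≠ 0)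
    (L : LineBundle Γ) (hL : IsLogPluricanonical L m ρ β) (H : V → V → ℂ) (hc : IsChernForm L H) :
    (IsSemiample L ↔ IsNefForm H) ∧
    (IsNefForm H → ∃ (n : ℕ) (Δ : Subgroup ((Fin n → ℂ) ≃ᵃ[ℂ] (Fin n → ℂ)))
      (π : V →ₗ[ℂ] (Fin n → ℂ)), (∀ v, π v = 0 ↔ ∀ w, H v w = 0) ∧
        IsFibration Γ Δ π ∧ Induces L Δ π) := by
  refine ⟨⟨?_, fun hn => ?_⟩, fun hn => abundance hΓ hc hρ hβ hβ0 hL hn⟩
  · rintro ⟨n, Δ, π, h2, h3⟩
    exact (nef_of_induces hΓ hc h2 h3).1
  · obtain ⟨n, Δ, π, -, h2, h3⟩ := abundance hΓ hc hρ hβ hβ0 hL hn
    exact ⟨n, Δ, π, h2, h3⟩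

end Pool.Agent.Results.MP_9a2ae6_ag.TorusQuotientPairs
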